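import Pool.Agent.Helper58.DG.Goals

/-!
# Project DG: B_SUM
-/

set_option autoImplicit false

namespace Pool.Agent.Helper13.DG

open Pool.Agent.Helper83.EIN Pool.Agent.Helper58.DG Finset Topology

/-- The Jacobian determinant from the derivatives along lines. -/
theorem jac_of_line {m : ℕ} (f : (Fin m → ℝ) → Fin m → ℝ) (x : Fin m → ℝ)
    (A : Matrix (Fin m) (Fin m) ℝ) (hd : DifferentiableAt ℝ f x)
    (h : ∀ (v : Fin m → ℝ) (i : Fin m), deriv (fun s : ℝ ↦ f (x + s • v) i) 0 = A.mulVec v i) :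
    jac f x = A.det := by
  unfold jac
  have h1 : ((fderiv ℝ f x : (Fin m → ℝ) →L[ℝ] (Fin m → ℝ)) : (Fin m → ℝ) →ₗ[ℝ] (Fin m → ℝ)) =
      Matrix.toLin' A := by
    apply LinearMap.ext
    intro v
    funext i
    rw [Matrix.toLin'_apply, ← h]
    have h2 : HasDerivAt (fun s : ℝ ↦ x + s • v) v 0 := by
      have h3 : HasDerivAt (fun s : ℝ ↦ s • v) ((1 : ℝ) • v) 0 := (hasDerivAt_id (0 : ℝ)).smul_const v
      rw [one_smul] at h3
      exact h3.const_add x
    have h4 : HasFDerivAt f (fderiv ℝ f x) (x + (0 : ℝ) • v) := by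
      rw [zero_smul, add_zero]
      exact hd.hasFDerivAt
    have h5 := h4.comp_hasDerivAt (0 : ℝ) h2
    rw [hasDerivAt_pi] at h5
    exact (h5 i).deriv.symm
  show LinearMap.det _ = _
  rw [h1, LinearMap.det_toLin']

theorem FB_cd' (a b c t : ℝ) : ContDiff ℝ 1 (FB a b c t) := by
  have h : ContDiff ℝ 1 (fun u : Fin 6 → ℝ ↦ ((t, u) : ℝ × (Fin 6 → ℝ))) := by fun_prop
  exact (FB_cd a b c).comp h

theorem FA_cd' (a b c t : ℝ) : ContDiff ℝ 1 (FA a b c t) := by
  have h : ContDiff ℝ 1 (fun u : Fin 6 → ℝ ↦ ((t, u) : ℝ × (Fin 6 → ℝ))) := by fun_prop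
  exact (FA_cd a b c).comp h

/-- The Jacobian matrix of `FB` at the limit zeros. -/
noncomputable def JB (d : ℝ) : Matrix (Fin 6) (Fin 6) ℝ :=
  !![8, 0, 0, 0, 0, 0;
    16 / 3 * d, 8 / 9 - 12 * d ^ 2, 8 / 9, -(4 / 9) * d, 4 / 3 * d - 4 * d ^ 3,
      20 / 9 * d - 4 * d ^ 3;
    8 * d, 32 / 3, -32 / 3, -(16 / 3) * d, -(16 / 3) * d, 16 / 3 * d;
    0, 0, 0, 8 / 3, 0, 0;
    0, 0, 0, 0, 8, 0;
    0, 0, 0, 16 / 3, 16 / 3, -8 / 3]

theorem det_JB (d : ℝ) : (JB d).det =
    8 * ((8 / 9 - 12 * d ^ 2) * (-32 / 3) - 8 / 9 * (32 / 3)) * (8 / 3) * 8 * (-8 / 3) := by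
  simp [JB, Matrix.det_succ_row_zero, Fin.sum_univ_succ, Fin.succAbove]
  ring

theorem jac_FB0 (d : ℝ) : jac (FB (1 / 3) (1 / 3) (1 / 3) 0) ![2 / 3, d, d, 1, 1, 2] =
    (JB d).det := by
  apply jac_of_line
  · exact (FB_cd' _ _ _ _).differentiable (by norm_num) _
  · intro v i
    fin_cases i
    all_goals
      simp [FB, JB, Matrix.mulVec, dotProduct, Fin.sum_univ_succ]
      simp (disch := fun_prop) only [deriv_fun_add, deriv_fun_sub, deriv_fun_mul, deriv_fun_pow,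
        deriv_const, deriv_id'', deriv.fun_neg]
      ring

/-- The diagonal matrix of `FA_psB`. -/
noncomputable def QB (t : ℝ) (u : Fin 6 → ℝ) : Matrix (Fin 6) (Fin 6) ℝ :=
  Matrix.diagonal ![1, u 3 * (u 5 + t * u 2), 1, (u 3 + t * u 1) * u 5, 1, 1]

/-- The right-hand side of `FA_psB`. -/
noncomputable def MB (t : ℝ) (u : Fin 6 → ℝ) : Matrix (Fin 6) (Fin 6) ℝ :=
  !![t, 0, 0, 0, 0, 0;
    0, 0, t ^ 2, 0, 0, t * (u 3 + t * u 1) * u 5;
    0, 0, 0, 0, 0, t;
    t ^ 2 * u 1 * u 4, t ^ 3, 0, t * u 3 * (u 5 + t * u 2), 0, 0;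
    0, 0, 0, t, 0, 0;
    0, 0, 0, 0, 1, 0]

/-- The matrix of `psB`. -/
noncomputable def PB (t : ℝ) : Matrix (Fin 6) (Fin 6) ℝ :=
  !![t, 0, 0, 0, 0, 0;
    0, 0, t, 0, 0, 1;
    0, 0, 0, 0, 0, 1;
    0, t, 0, 1, 0, 0;
    0, 0, 0, 1, 0, 0;
    0, 0, 0, 0, 1, 0]

theorem det_QB (t : ℝ) (u : Fin 6 → ℝ) : (QB t u).det =
    (u 3 * (u 5 + t * u 2)) * ((u 3 + t * u 1) * u 5) := by
  simp [QB, Matrix.det_diagonal, Fin.prod_univ_succ]

theorem det_MB (t : ℝ) (u : Fin 6 → ℝ) : (MB t u).det = t ^ 8 := by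
  simp [MB, Matrix.det_succ_row_zero, Fin.sum_univ_succ, Fin.succAbove]
  ring

theorem det_PB (t : ℝ) : (PB t).det = t ^ 3 := by
  simp [PB, Matrix.det_succ_row_zero, Fin.sum_univ_succ, Fin.succAbove]
  ring

theorem psB_cd (t : ℝ) : ContDiff ℝ 1 (psB t) := by
  unfold psB
  rw [contDiff_pi]
  intro i
  fin_cases i <;> simp <;> fun_prop

theorem jac_psB (t : ℝ) (u : Fin 6 → ℝ) : jac (psB t) u = t ^ 3 := by
  rw [← det_PB]
  apply jac_of_line
  · exact (psB_cd t).differentiable (by norm_num) _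
  · intro v i
    fin_cases i
    all_goals
      simp [psB, PB, Matrix.mulVec, dotProduct, Fin.sum_univ_succ]
    all_goals
      simp (disch := fun_prop) only [deriv_fun_add, deriv_fun_mul, deriv_const, deriv_id'']
      ring

theorem QB_cd (t : ℝ) (i j : Fin 6) : ContDiff ℝ 1 fun u : Fin 6 → ℝ ↦ QB t u i j := by
  unfold QB
  fin_cases i <;> fin_cases j <;> simp [Matrix.diagonal] <;> fun_prop

theorem MB_cd (t : ℝ) (i j : Fin 6) : ContDiff ℝ 1 fun u : Fin 6 → ℝ ↦ MB t u i j := by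
  unfold MB
  fin_cases i <;> fin_cases j <;> simp <;> fun_prop

/-- The relation of the Jacobian determinants. -/
theorem jac_rel (h2 : C_TRF) {a b c t : ℝ} (habc : a + b + c = 1) (u : Fin 6 → ℝ)
    (hf : FB a b c t u = 0) (hp : FA a b c t (psB t u) = 0) :
    (u 3 * (u 5 + t * u 2)) * ((u 3 + t * u 1) * u 5) * jac (FA a b c t) (psB t u) * t ^ 3 =
      t ^ 8 * jac (FB a b c t) u := by
  have h := h2 6 (FA a b c t) (psB t) (FB a b c t) (QB t) (MB t) u (FA_cd' a b c t) (psB_cd t)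
    (FB_cd' a b c t) (QB_cd t) (MB_cd t) ?_ hf hp
  · rw [det_QB, det_MB, jac_psB] at h
    exact h
  · intro y
    obtain ⟨k0, k2, k4, k5, k3, k1⟩ := FA_psB (t := t) habc y
    funext i
    fin_cases i
    · simp [QB, MB, Matrix.mulVec, dotProduct, Fin.sum_univ_succ, k0]
    · simp [QB, MB, Matrix.mulVec, dotProduct, Fin.sum_univ_succ]
      rw [k1]
      ring
    · simp [QB, MB, Matrix.mulVec, dotProduct, Fin.sum_univ_succ, k2]
    · simp [QB, MB, Matrix.mulVec, dotProduct, Fin.sum_univ_succ]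
      rw [k3]
      ring
    · simp [QB, MB, Matrix.mulVec, dotProduct, Fin.sum_univ_succ, k4]
    · simp [QB, MB, Matrix.mulVec, dotProduct, Fin.sum_univ_succ, k5]

theorem sg_mul {c r : ℝ} (hc : 0 < c) : sg (c * r) = sg r := by
  unfold sg
  rw [sign_mul, sign_pos hc, one_mul]

/-- The limit zeros. -/
noncomputable def zz (d : ℝ) : Fin 6 → ℝ := ![2 / 3, d, d, 1, 1, 2]

theorem b_sum (h1 : C_SGN) (h2 : C_TRF) : B_SUM := by
  classical
  have habc : (1 / 3 + 1 / 3 + 1 / 3 : ℝ) = 1 := by norm_num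
  have h3 : (0 : ℝ) < 1 / 3 := by norm_num
  have hK : IsCompact (Set.Icc (![2 / 3, -6, -6, 1/2, 1/2, 1] : Fin 6 → ℝ) ![6, 6, 6, 2, 2, 2]) :=
    isCompact_Icc
  have hmemZ : ∀ z ∈ ({zz (2 / 3), zz (-(2 / 3)), zz 0} :
      Finset (Fin 6 → ℝ)), ∃ d, z = zz d ∧ |d| ≤ 2 / 3 ∧
        ((2 / 3) ^ 2 - d ^ 2) * d = 0 := by
    intro z hz
    rw [mem_insert, mem_insert, mem_singleton] at hz
    rcases hz with rfl | rfl | rfl
    · refine ⟨2 / 3, rfl, ?_, by ring⟩
      rw [abs_of_pos (by norm_num)]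
    · refine ⟨-(2 / 3), rfl, ?_, by ring⟩
      rw [abs_neg, abs_of_pos (by norm_num)]
    · refine ⟨0, rfl, ?_, by ring⟩
      rw [abs_zero]
      norm_num
  have j1 : jac (FB (1 / 3) (1 / 3) (1 / 3) 0) (zz (2 / 3)) = -4194304 / 243 := by
    unfold zz
    rw [jac_FB0, det_JB]
    norm_num
  have j2 : jac (FB (1 / 3) (1 / 3) (1 / 3) 0) (zz (-(2 / 3))) = -4194304 / 243 := by
    unfold zz
    rw [jac_FB0, det_JB]
    norm_num
  have j3 : jac (FB (1 / 3) (1 / 3) (1 / 3) 0) (zz 0) = 2097152 / 243 := by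
    unfold zz
    rw [jac_FB0, det_JB]
    norm_num
  have n12 : zz (2 / 3) ≠ zz (-(2 / 3)) := by
    intro h
    have := congrFun h 1
    simp [zz] at this
    linarith
  have n13 : zz (2 / 3) ≠ zz 0 := by
    intro h
    have := congrFun h 1
    simp [zz] at this
  have n23 : zz (-(2 / 3)) ≠ zz 0 := by
    intro h
    have := congrFun h 1
    simp [zz] at this
  have hsum : ∑ z ∈ ({zz (2 / 3), zz (-(2 / 3)), zz 0} : Finset (Fin 6 → ℝ)),
      sg (jac (FB (1 / 3) (1 / 3) (1 / 3) 0) z) = -1 := by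
    rw [sum_insert (by simp [n12, n13]), sum_insert (by simp [n23]), sum_singleton, j1, j2, j3]
    unfold sg
    rw [sign_neg (by norm_num : (-4194304 / 243 : ℝ) < 0),
      sign_pos (by norm_num : (0 : ℝ) < 2097152 / 243)]
    simp
  suffices hmain : ∃ ε > 0, ∀ t, 0 < t → t < ε → ∃ Zt : Finset (Fin 6 → ℝ),
      (∀ u, u ∈ Zt ↔ u ∈ {u | Sol (1 / 3) (1 / 3) (1 / 3) t (psB t u) ∧ psB t u 0 < 1 ∧
        1 ≤ psB t u 1 ∧ 1 ≤ psB t u 2}) ∧
      (∀ u ∈ Zt, jac (FB (1 / 3) (1 / 3) (1 / 3) t) u ≠ 0) ∧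
      ∑ u ∈ Zt, sg (jac (FB (1 / 3) (1 / 3) (1 / 3) t) u) =
        ∑ z ∈ ({zz (2 / 3), zz (-(2 / 3)), zz 0} : Finset (Fin 6 → ℝ)),
          sg (jac (FB (1 / 3) (1 / 3) (1 / 3) 0) z) by
    obtain ⟨ε, hε, hmain⟩ := hmain
    rw [hsum] at hmain
    refine ⟨ε, hε, fun t ht0 htε ↦ ?_⟩
    obtain ⟨Zt, hZt, hne, hs⟩ := hmain t ht0 htε
    have hpos : ∀ u ∈ Zt, ∃ c : ℝ, 0 < c ∧
        jac (FA (1 / 3) (1 / 3) (1 / 3) t) (psB t u) =
          c * jac (FB (1 / 3) (1 / 3) (1 / 3) t) u := by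
      intro u hu
      obtain ⟨hu1, -⟩ := (hZt u).1 hu
      have p := hu1.pos
      have p1 := p 1
      have p2 := p 2
      have p3 := p 3
      have p4 := p 4
      have hA := (sol_iff_FA p).1 hu1
      have hB := (sol_iff_FB habc ht0 p).1 hu1
      simp [psB] at p1 p2 p3 p4
      have hr := jac_rel h2 habc u hB hA
      have hq : 0 < (u 3 * (u 5 + t * u 2)) * ((u 3 + t * u 1) * u 5) * t ^ 3 := by positivity
      refine ⟨t ^ 8 / ((u 3 * (u 5 + t * u 2)) * ((u 3 + t * u 1) * u 5) * t ^ 3), by positivity, ?_⟩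
      rw [div_mul_eq_mul_div, eq_div_iff hq.ne', ← hr]
      ring
    refine ⟨Zt.image (psB t), ?_, ?_, ?_⟩
    · intro v
      rw [mem_image]
      constructor
      · rintro ⟨u, hu, rfl⟩
        exact (hZt u).1 hu
      · intro hv
        refine ⟨_, (hZt _).2 ?_, psB_surj ht0 v⟩
        rw [Set.mem_ofPred_eq, psB_surj ht0 v]
        exact hv
    · intro v hv
      obtain ⟨u, hu, rfl⟩ := mem_image.1 hv
      obtain ⟨c, hc, he⟩ := hpos u hu
      rw [he]
      exact mul_ne_zero hc.ne' (hne u hu)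
    · rw [sum_image (fun x _ y _ h => psB_inj ht0 h), ← hs]
      refine sum_congr rfl fun u hu ↦ ?_
      obtain ⟨c, hc, he⟩ := hpos u hu
      rw [he, sg_mul hc]
  refine h1 6 (FB (1 / 3) (1 / 3) (1 / 3)) _
    {zz (2 / 3), zz (-(2 / 3)), zz 0}
    (Set.pi Set.univ fun i ↦ Set.Ioo ((![0, -7, -7, 1/2, 1/2, 3/2] : Fin 6 → ℝ) i)
      ((![7, 7, 7, 2, 2, 3] : Fin 6 → ℝ) i))
    (fun t ↦ {u | Sol (1 / 3) (1 / 3) (1 / 3) t (psB t u) ∧ psB t u 0 < 1 ∧ 1 ≤ psB t u 1 ∧
      1 ≤ psB t u 2}) (1/100) (FB_cd _ _ _) hK ?_ ?_ ?_ ?_ (by norm_num) ?_ ?_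
  · intro u hu h0
    rw [Set.mem_Icc, Pi.le_def, Pi.le_def] at hu
    have l0 := hu.1 0
    have l3 := hu.1 3
    have l4 := hu.1 4
    have l5 := hu.1 5
    simp at l0 l3 l4 l5
    have q0 : 0 < u 0 := by linarith
    have q3 : 0 < u 3 := by linarith
    have q4 : 0 < u 4 := by linarith
    have q5 : 0 < u 5 := by linarith
    have f0 := congrFun h0 0
    have f1 := congrFun h0 1
    have f2 := congrFun h0 2
    have f3 := congrFun h0 3
    have f4 := congrFun h0 4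
    have f5 := congrFun h0 5
    simp only [FB] at f0 f1 f2 f3 f4 f5
    simp only [Matrix.cons_val, zero_mul, add_zero, sub_zero, mul_zero, Pi.zero_apply] at f0 f1 f2 f3 f4 f5
    have a3 : u 3 = 1 := by
      have h : (2 * u 0 * u 3 * u 5 * u 4) * (u 3 - 1) = 0 := by linear_combination f3
      have := (mul_eq_zero.1 h).resolve_left (by positivity)
      linarith
    have a4 : u 4 = 1 := by
      have h : (2 * u 5 * u 3 * u 5 * u 3) * (u 4 - 1) = 0 := by linear_combination f4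
      have := (mul_eq_zero.1 h).resolve_left (by positivity)
      linarith
    have a0 : u 0 = 2 / 3 := by
      have h : (2 * u 3 * u 3 * u 5 * u 5) * (u 0 - 1 / 3 - 1 / 3) = 0 := by linear_combination f0
      have := (mul_eq_zero.1 h).resolve_left (by positivity)
      linarith
    have a5 : u 5 = 2 := by
      rw [a3, a4] at f5
      have h : (u 0 * u 5 * u 5) * (2 - u 5) = 0 := by linear_combination f5
      have := (mul_eq_zero.1 h).resolve_left (by positivity)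
      linarith
    have a2 : u 2 = u 1 := by
      rw [a3, a4, a5, a0] at f2
      linarith
    have a1 : ((2 / 3) ^ 2 - u 1 ^ 2) * u 1 = 0 := by
      rw [a3, a4, a5, a0, a2] at f1
      linear_combination f1 / 4
    have hu' : u = zz (u 1) := by
      funext i
      fin_cases i
      · exact a0
      · rfl
      · exact a2
      · exact a3
      · exact a4
      · exact a5
    rw [mem_insert, mem_insert, mem_singleton]
    rcases mul_eq_zero.1 a1 with h | h
    · have h' : (2 / 3 - u 1) * (2 / 3 + u 1) = 0 := by linear_combination h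
      rcases mul_eq_zero.1 h' with h' | h'
      · left
        rw [hu']
        congr 1
        linarith
      · right
        left
        rw [hu']
        congr 1
        linarith
    · right
      right
      rw [hu']
      congr 1
  · intro z hz
    obtain ⟨d, rfl, hd1, hd2⟩ := hmemZ z hz
    funext i
    fin_cases i
    · simp [FB, zz]; ring
    · simp [FB, zz]; linear_combination 4 * hd2
    · simp [FB, zz]; ring
    · simp [FB, zz]
    · simp [FB, zz]
    · simp [FB, zz]; ring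
  · intro z hz
    rw [mem_insert, mem_insert, mem_singleton] at hz
    rcases hz with rfl | rfl | rfl
    · rw [j1]; norm_num
    · rw [j2]; norm_num
    · rw [j3]; norm_num
  · intro z hz
    obtain ⟨d, rfl, hd1, hd2⟩ := hmemZ z hz
    rw [abs_le] at hd1
    refine (isOpen_set_pi Set.finite_univ fun i _ ↦ isOpen_Ioo).mem_nhds ?_
    intro i _
    fin_cases i <;> simp [zz] <;> (try norm_num) <;> (try constructor) <;> linarith
  · rintro t ht ht2 u ⟨hu, l0, l1, l2⟩
    have B := bd ti h3 h3 h3 habc ht (by linarith) hu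
    have hsm := small0 h3 (by norm_num) ht (by linarith) hu B l0
    obtain ⟨s1, s2, s3⟩ := B.t1
    obtain ⟨s4, s5, s6⟩ := B.t2
    have b0 := B.l0
    have b3 := B.l3
    have b4 := B.l4
    have b5 := B.l5
    have c2 := B.u2
    have c3 := B.u3
    have c4 := B.u4
    have c5 := B.u5
    simp [psB] at hsm s1 s2 s3 s4 s5 s6 b0 b3 b4 b5 c2 c3 c4 c5 l2
    have w0 : 2 / 3 ≤ u 0 := by
      by_contra hcon
      have := mul_lt_mul_of_pos_left (not_le.1 hcon) ht
      linarith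
    have w0' : u 0 ≤ 6 := by
      by_contra hcon
      have := mul_lt_mul_of_pos_left (not_le.1 hcon) ht
      linarith
    have w1 : u 1 ≤ u 0 := by
      by_contra hcon
      have := mul_lt_mul_of_pos_left (not_le.1 hcon) ht
      linarith
    have w1' : -u 0 ≤ u 1 := by
      by_contra hcon
      have := mul_lt_mul_of_pos_left (not_le.1 hcon) ht
      linarith
    have w2 : u 2 ≤ u 0 := by
      by_contra hcon
      have := mul_lt_mul_of_pos_left (not_le.1 hcon) ht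
      linarith
    have w2' : -u 0 ≤ u 2 := by
      by_contra hcon
      have := mul_lt_mul_of_pos_left (not_le.1 hcon) ht
      linarith
    refine ⟨⟨?_, ?_⟩, (sol_iff_FB habc ht hu.pos).1 hu⟩
    · intro i
      fin_cases i <;> simp <;> linarith
    · intro i
      fin_cases i <;> simp <;> linarith
  · intro t ht ht2 u hu h0
    obtain ⟨l0, r0⟩ := hu 0 trivial
    obtain ⟨l1, r1⟩ := hu 1 trivial
    obtain ⟨l2, r2⟩ := hu 2 trivial
    obtain ⟨l3, r3⟩ := hu 3 trivial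
    obtain ⟨l4, r4⟩ := hu 4 trivial
    obtain ⟨l5, r5⟩ := hu 5 trivial
    simp at l0 l1 l2 l3 l4 l5 r0 r1 r2 r3 r4 r5
    have k0 : t * u 0 < 1 := by nlinarith
    have k0' : 0 < t * u 0 := mul_pos ht l0
    have k1 : -(7 / 100) ≤ t * u 1 := by nlinarith
    have k2 : -(7 / 100) ≤ t * u 2 := by nlinarith
    refine ⟨(sol_iff_FB habc ht ?_).2 h0, ?_, ?_, ?_⟩
    · intro i
      fin_cases i <;> simp [psB] <;> linarith
    · simp [psB]
      exact k0
    · simp [psB]
      linarith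
    · simp [psB]
      linarith

end Pool.Agent.Helper13.DG
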